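import Mathlib
import Pool.Agent.Helper543.RadiiLow

/-! Point sets in general position with few distinct circumradii. -/

namespace Pool.Agent.Results.MP_cd3201_co.NearQuadratic

/-- the Euclidean plane -/
abbrev Plane := EuclideanSpace ℝ (Fin 2)

/-- the points of `T` lie on a common circle of radius `r` -/
def HasRadius (T : Finset Plane) (r : ℝ) : Prop :=
  ∃ c : Plane, (T : Set Plane) ⊆ Metric.sphere c r

/-- general position: no three points collinear, no four points on a circle -/
def GenPos (X : Finset Plane) : Prop :=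
  (∀ T ⊆ X, T.card = 3 → ¬ Collinear ℝ (T : Set Plane)) ∧
  (∀ T ⊆ X, T.card = 4 → ¬ ∃ (c : Plane) (r : ℝ), (T : Set Plane) ⊆ Metric.sphere c r)

/-- the radii of the circles through three points of `P` -/
def Radii (P : Finset Plane) : Set ℝ := {r | ∃ T ⊆ P, T.card = 3 ∧ HasRadius T r}

/-- the least number of distinct radii determined by `n` points in general position -/
noncomputable def h (n : ℕ) : ℕ :=
  sInf {m | ∃ P : Finset Plane, P.card = n ∧ GenPos P ∧ (Radii P).ncard = m}

/-- For every positive `ε` there is a constant `K` such that for every `n` the minimum `h n` is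
attained by a set in general position (with finitely many radii) and `h n ≤ K * n ^ (2 + ε)`. -/
theorem result : ∀ ε : ℝ, 0 < ε → ∃ K : ℝ, 0 < K ∧ ∀ n : ℕ, 3 ≤ n →
    (∃ P : Finset Plane, P.card = n ∧ GenPos P ∧ (Radii P).Finite ∧ (Radii P).ncard = h n) ∧
    (h n : ℝ) ≤ K * (n : ℝ) ^ (2 + ε) := by
  intro ε hε
  obtain ⟨K, hK, hex⟩ := Pool.Agent.Helper543.RadiiLow.few_radii ε hε
  refine ⟨K, hK, fun n hn => ?_⟩
  obtain ⟨P, h1, h2, h3, h4⟩ := hex n (by omega)
  have hmem : (Radii P).ncard ∈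
      {m | ∃ P : Finset Plane, P.card = n ∧ GenPos P ∧ (Radii P).ncard = m} := ⟨P, h1, h2, rfl⟩
  constructor
  · obtain ⟨Q, q1, q2, q3⟩ := Nat.sInf_mem (⟨_, hmem⟩ :
      {m | ∃ P : Finset Plane, P.card = n ∧ GenPos P ∧ (Radii P).ncard = m}.Nonempty)
    exact ⟨Q, q1, q2, Pool.Agent.Helper543.RadiiLow.radii_finite Q, q3⟩
  · have h5 : h n ≤ (Radii P).ncard := Nat.sInf_le hmem
    calc (h n : ℝ) ≤ ((Radii P).ncard : ℝ) := by exact_mod_cast h5
      _ ≤ _ := h4

end Pool.Agent.Results.MP_cd3201_co.NearQuadratic
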